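import Mathlib

set_option autoImplicit false

namespace Pool.Agent.Results.MP_31d2fb_co.TruncatedPetersen

open Finset

variable {V E : Type} [Fintype V] [DecidableEq V] [Fintype E] [DecidableEq E]

/-- Degree of the vertex `v` in the edge set `C` of the multigraph whose edge `e` joins
`s e` and `t e` (a loop would count twice). -/
def deg (s t : E → V) (C : Finset E) (v : V) : ℕ :=
  (C.filter (fun e => s e = v)).card + (C.filter (fun e => t e = v)).card

/-- Every vertex has degree three. -/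
def IsCubic (s t : E → V) : Prop := ∀ v, deg s t univ v = 3

/-- `C` is an even subgraph: every vertex is incident with an even number of edges of `C`. -/
def IsEvenSubgraph (s t : E → V) (C : Finset E) : Prop := ∀ v, Even (deg s t C v)

/-- `C` is the edge set of a 2-factor: every vertex has degree two in `C`. -/
def IsTwoFactor (s t : E → V) (C : Finset E) : Prop := ∀ v, deg s t C v = 2

/-- `f` is a Fano flow: a nowhere-zero flow with values in the elementary abelian group of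
order eight. -/
def IsFanoFlow (s t : E → V) (f : E → (Fin 3 → ZMod 2)) : Prop :=
  (∀ e, f e ≠ 0) ∧
  ∀ v, (∑ e ∈ univ.filter (fun e => s e = v), f e)
     + (∑ e ∈ univ.filter (fun e => t e = v), f e) = 0

/-- The set of flow values on the edges incident with `v` (a line of the Fano plane when the
graph is cubic and `f` is a Fano flow). -/
def lineAt (s t : E → V) (f : E → (Fin 3 → ZMod 2)) (v : V) : Finset (Fin 3 → ZMod 2) :=
  (univ.filter (fun e => s e = v ∨ t e = v)).image f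

/-- The multigraph admits an `F_k`-flow: a Fano flow in which at most `k` different lines
occur at the vertices. -/
def AdmitsFanoFlow (k : ℕ) (s t : E → V) : Prop :=
  ∃ f : E → (Fin 3 → ZMod 2), IsFanoFlow s t f ∧ (univ.image (lineAt s t f)).card ≤ k

/-- First ends of the 45 edges of the truncated Petersen graph. Edges 0 to 14 are the edges
of the Petersen graph, edges 15 to 44 form the ten triangles replacing its vertices. -/
def src : Fin 45 → Fin 30 :=
  ![0, 4, 7, 10, 13, 2, 5, 8, 11, 14, 16, 19, 23, 26, 29, 0, 1, 2, 3, 4, 5, 6, 7, 8, 9,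
    10, 11, 12, 13, 14, 15, 16, 17, 18, 19, 20, 21, 22, 23, 24, 25, 26, 27, 28, 29]

/-- Second ends of the 45 edges. -/
def tgt : Fin 45 → Fin 30 :=
  ![3, 6, 9, 12, 1, 15, 18, 21, 24, 27, 22, 25, 28, 17, 20, 1, 2, 0, 4, 5, 3, 7, 8, 6,
    10, 11, 9, 13, 14, 12, 16, 17, 15, 19, 20, 18, 22, 23, 21, 25, 26, 24, 28, 29, 27]

def fl : Fin 45 → (Fin 3 → ZMod 2) :=
  ![![1, 0, 0], ![1, 1, 1], ![1, 0, 1], ![1, 1, 0], ![1, 1, 1], ![0, 1, 1], ![0, 1, 1],
    ![0, 1, 0], ![0, 1, 1], ![0, 0, 1], ![1, 0, 1], ![1, 0, 1], ![1, 1, 1], ![1, 1, 0],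
    ![1, 1, 0], ![0, 1, 1], ![1, 0, 0], ![1, 1, 1], ![0, 1, 1], ![1, 0, 0], ![1, 1, 1],
    ![0, 1, 0], ![1, 1, 1], ![1, 0, 1], ![0, 1, 1], ![1, 0, 1], ![1, 1, 0], ![0, 0, 1],
    ![1, 1, 0], ![1, 1, 1], ![1, 1, 0], ![0, 1, 1], ![1, 0, 1], ![1, 1, 0], ![0, 1, 1],
    ![1, 0, 1], ![1, 1, 1], ![0, 1, 0], ![1, 0, 1], ![1, 1, 0], ![0, 1, 1], ![1, 0, 1],
    ![1, 1, 0], ![0, 0, 1], ![1, 1, 1]]

def p : Fin 30 → Fin 45 :=
  ![0, 4, 5, 0, 1, 6, 1, 2, 7, 2, 3, 8, 3, 4, 9, 5, 10, 13, 6, 11, 14, 7, 10, 12, 8, 11,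
    13, 9, 12, 14]

def q : Fin 30 → Fin 45 :=
  ![15, 16, 17, 18, 19, 20, 21, 22, 23, 24, 25, 26, 27, 28, 29, 30, 31, 32, 33, 34, 35,
    36, 37, 38, 39, 40, 41, 42, 43, 44]

def r : Fin 30 → Fin 45 :=
  ![17, 15, 16, 20, 18, 19, 23, 21, 22, 26, 24, 25, 29, 27, 28, 32, 30, 31, 35, 33, 34,
    38, 36, 37, 41, 39, 40, 44, 42, 43]

/-- The ten triangles. -/
def tri : Finset (Fin 45) := univ.filter (fun e => 15 ≤ e.val)

set_option maxRecDepth 100000 in
theorem inc_eq : ∀ (v : Fin 30) (e : Fin 45),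
    ((if src e = v then 1 else 0) + (if tgt e = v then 1 else 0) : ℕ)
      = (if p v = e then 1 else 0) + (if q v = e then 1 else 0) + (if r v = e then 1 else 0) := by
  decide +kernel

theorem deg_eq (C : Finset (Fin 45)) (v : Fin 30) :
    deg src tgt C v
      = (if p v ∈ C then 1 else 0) + (if q v ∈ C then 1 else 0) + (if r v ∈ C then 1 else 0) := by
  unfold deg
  rw [card_filter, card_filter, ← sum_add_distrib]
  rw [sum_congr rfl (fun e _ => inc_eq v e)]
  rw [sum_add_distrib, sum_add_distrib]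
  simp [sum_ite_eq]

theorem deg_eq' (C : Finset (Fin 45)) (v : Fin 30) :
    deg src tgt C v
      = (decide (p v ∈ C)).toNat + (decide (q v ∈ C)).toNat + (decide (r v ∈ C)).toNat := by
  rw [deg_eq]
  simp only [Bool.toNat, Bool.cond_decide]

/-- Colour of an edge determined by its membership in the two even subgraphs. -/
def col (a b : Bool) : Fin 3 := if a then (if b then 1 else 2) else 0

theorem local_step : ∀ a0 a1 a2 x0 x1 x2 : Bool,
    a0.toNat + x0.toNat + x2.toNat = 2 →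
    a1.toNat + x1.toNat + x0.toNat = 2 →
    a2.toNat + x2.toNat + x1.toNat = 2 →
    ∀ b0 b1 b2 : Bool, (a0 || b0) = true → (a1 || b1) = true → (a2 || b2) = true →
    ∀ y0 y1 y2 : Bool,
    (b0.toNat + y0.toNat + y2.toNat) % 2 = 0 →
    (b1.toNat + y1.toNat + y0.toNat) % 2 = 0 →
    (b2.toNat + y2.toNat + y1.toNat) % 2 = 0 →
    col a0 b0 ≠ col a1 b1 ∧ col a0 b0 ≠ col a2 b2 ∧ col a1 b1 ≠ col a2 b2 := by
  decide +kernel

set_option synthInstance.maxSize 4000 in
set_option maxSynthPendingDepth 100 in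
/-- The Petersen graph has no proper edge colouring with three colours. -/
theorem petersen_not_colourable :
    ∀ c0 c4 c5 : Fin 3, (c0 ≠ c4 ∧ c0 ≠ c5 ∧ c4 ≠ c5) →
    ∀ c1 c6 : Fin 3, (c0 ≠ c1 ∧ c0 ≠ c6 ∧ c1 ≠ c6) →
    ∀ c2 c7 : Fin 3, (c1 ≠ c2 ∧ c1 ≠ c7 ∧ c2 ≠ c7) →
    ∀ c3 c8 : Fin 3, (c2 ≠ c3 ∧ c2 ≠ c8 ∧ c3 ≠ c8) →
    ∀ c9 : Fin 3, (c3 ≠ c4 ∧ c3 ≠ c9 ∧ c4 ≠ c9) →
    ∀ c10 c13 : Fin 3, (c5 ≠ c10 ∧ c5 ≠ c13 ∧ c10 ≠ c13) →
    ∀ c12 : Fin 3, (c7 ≠ c10 ∧ c7 ≠ c12 ∧ c10 ≠ c12) →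
    ∀ c14 : Fin 3, (c9 ≠ c12 ∧ c9 ≠ c14 ∧ c12 ≠ c14) →
    ∀ c11 : Fin 3, (c6 ≠ c11 ∧ c6 ≠ c14 ∧ c11 ≠ c14) →
    ¬ (c8 ≠ c11 ∧ c8 ≠ c13 ∧ c11 ≠ c13) := by
  decide +kernel

theorem tri_compl : ∀ e : Fin 45, e.val < 15 → e ∉ tri := by
  decide +kernel

/-- One triangle: the colours of the three edges leaving it are pairwise different. -/
theorem triangle_step (C1 C2 : Finset (Fin 45))
    (h1 : IsTwoFactor src tgt C1) (h2 : IsEvenSubgraph src tgt C2)
    (hc : ∀ e : Fin 45, e.val < 15 → (decide (e ∈ C1) || decide (e ∈ C2)) = true)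
    (v0 v1 v2 : Fin 30) (e0 e1 e2 : Fin 45) (h0 : p v0 = e0) (h1' : p v1 = e1) (h2' : p v2 = e2)
    (hq1 : r v1 = q v0) (hq2 : r v2 = q v1) (hq3 : r v0 = q v2)
    (g0 : e0.val < 15) (g1 : e1.val < 15) (g2 : e2.val < 15) :
    col (decide (e0 ∈ C1)) (decide (e0 ∈ C2)) ≠ col (decide (e1 ∈ C1)) (decide (e1 ∈ C2)) ∧
    col (decide (e0 ∈ C1)) (decide (e0 ∈ C2)) ≠ col (decide (e2 ∈ C1)) (decide (e2 ∈ C2)) ∧
    col (decide (e1 ∈ C1)) (decide (e1 ∈ C2)) ≠ col (decide (e2 ∈ C1)) (decide (e2 ∈ C2)) := by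
  have a0 := h1 v0
  have a1 := h1 v1
  have a2 := h1 v2
  have b0 := Nat.even_iff.mp (h2 v0)
  have b1 := Nat.even_iff.mp (h2 v1)
  have b2 := Nat.even_iff.mp (h2 v2)
  rw [deg_eq'] at a0 a1 a2 b0 b1 b2
  rw [hq3, h0] at a0 b0
  rw [hq1, h1'] at a1 b1
  rw [hq2, h2'] at a2 b2
  exact local_step _ _ _ _ _ _ a0 a1 a2 _ _ _ (hc _ g0) (hc _ g1) (hc _ g2) _ _ _ b0 b1 b2

/-- The core of the argument: no cover of the required kind extends the ten triangles. -/
theorem no_cover (C1 C2 : Finset (Fin 45))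
    (h1 : IsTwoFactor src tgt C1) (h2 : IsEvenSubgraph src tgt C2) :
    tri ∪ C1 ∪ C2 ≠ univ := by
  intro hu
  have hc : ∀ e : Fin 45, e.val < 15 → (decide (e ∈ C1) || decide (e ∈ C2)) = true := by
    intro e he
    have hm : e ∈ tri ∪ C1 ∪ C2 := by rw [hu]; exact mem_univ e
    rw [mem_union, mem_union] at hm
    have hn := tri_compl e he
    rcases hm with (hm | hm) | hm
    · exact absurd hm hn
    · simp [hm]
    · simp [hm]
  have T := triangle_step C1 C2 h1 h2 hc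
  have t0 := T 0 1 2 0 4 5 (by decide) (by decide) (by decide) (by decide) (by decide)
    (by decide) (by decide) (by decide) (by decide)
  have t1 := T 3 4 5 0 1 6 (by decide) (by decide) (by decide) (by decide) (by decide)
    (by decide) (by decide) (by decide) (by decide)
  have t2 := T 6 7 8 1 2 7 (by decide) (by decide) (by decide) (by decide) (by decide)
    (by decide) (by decide) (by decide) (by decide)
  have t3 := T 9 10 11 2 3 8 (by decide) (by decide) (by decide) (by decide) (by decide)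
    (by decide) (by decide) (by decide) (by decide)
  have t4 := T 12 13 14 3 4 9 (by decide) (by decide) (by decide) (by decide) (by decide)
    (by decide) (by decide) (by decide) (by decide)
  have t5 := T 15 16 17 5 10 13 (by decide) (by decide) (by decide) (by decide) (by decide)
    (by decide) (by decide) (by decide) (by decide)
  have t6 := T 18 19 20 6 11 14 (by decide) (by decide) (by decide) (by decide) (by decide)
    (by decide) (by decide) (by decide) (by decide)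
  have t7 := T 21 22 23 7 10 12 (by decide) (by decide) (by decide) (by decide) (by decide)
    (by decide) (by decide) (by decide) (by decide)
  have t8 := T 24 25 26 8 11 13 (by decide) (by decide) (by decide) (by decide) (by decide)
    (by decide) (by decide) (by decide) (by decide)
  have t9 := T 27 28 29 9 12 14 (by decide) (by decide) (by decide) (by decide) (by decide)
    (by decide) (by decide) (by decide) (by decide)
  exact petersen_not_colourable _ _ _ t0 _ _ t1 _ _ t2 _ _ t3 _ t4 _ _ t5 _ t7 _ t9 _ t6 t8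

theorem cubic : IsCubic src tgt := by
  unfold IsCubic deg
  decide +kernel

theorem fano : IsFanoFlow src tgt fl := by
  unfold IsFanoFlow
  decide +kernel

theorem lines : (univ.image (lineAt src tgt fl)).card ≤ 4 := by
  unfold lineAt
  decide +kernel

theorem tri_factor : IsTwoFactor src tgt tri := by
  unfold IsTwoFactor deg tri
  decide +kernel

theorem simple_graph : (∀ e, src e ≠ tgt e) ∧
    ∀ e e', e ≠ e' → s(src e, tgt e) ≠ s(src e', tgt e') := by
  decide +kernel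

theorem conn_aux (S : Finset (Fin 30)) (k : ∀ e, (src e ∈ S ↔ tgt e ∈ S)) :
    ∀ v : Fin 30, (v ∈ S ↔ (0 : Fin 30) ∈ S) := by
  have h0 : (0 : Fin 30) ∈ S ↔ (0 : Fin 30) ∈ S := Iff.rfl
  have h3 : (3 : Fin 30) ∈ S ↔ (0 : Fin 30) ∈ S := (k 0).symm.trans h0
  have h1 : (1 : Fin 30) ∈ S ↔ (0 : Fin 30) ∈ S := (k 15).symm.trans h0
  have h2 : (2 : Fin 30) ∈ S ↔ (0 : Fin 30) ∈ S := (k 17).trans h0
  have h4 : (4 : Fin 30) ∈ S ↔ (0 : Fin 30) ∈ S := (k 18).symm.trans h3
  have h5 : (5 : Fin 30) ∈ S ↔ (0 : Fin 30) ∈ S := (k 20).trans h3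
  have h13 : (13 : Fin 30) ∈ S ↔ (0 : Fin 30) ∈ S := (k 4).trans h1
  have h15 : (15 : Fin 30) ∈ S ↔ (0 : Fin 30) ∈ S := (k 5).symm.trans h2
  have h6 : (6 : Fin 30) ∈ S ↔ (0 : Fin 30) ∈ S := (k 1).symm.trans h4
  have h18 : (18 : Fin 30) ∈ S ↔ (0 : Fin 30) ∈ S := (k 6).symm.trans h5
  have h12 : (12 : Fin 30) ∈ S ↔ (0 : Fin 30) ∈ S := (k 27).trans h13
  have h14 : (14 : Fin 30) ∈ S ↔ (0 : Fin 30) ∈ S := (k 28).symm.trans h13
  have h16 : (16 : Fin 30) ∈ S ↔ (0 : Fin 30) ∈ S := (k 30).symm.trans h15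
  have h17 : (17 : Fin 30) ∈ S ↔ (0 : Fin 30) ∈ S := (k 32).trans h15
  have h7 : (7 : Fin 30) ∈ S ↔ (0 : Fin 30) ∈ S := (k 21).symm.trans h6
  have h8 : (8 : Fin 30) ∈ S ↔ (0 : Fin 30) ∈ S := (k 23).trans h6
  have h19 : (19 : Fin 30) ∈ S ↔ (0 : Fin 30) ∈ S := (k 33).symm.trans h18
  have h20 : (20 : Fin 30) ∈ S ↔ (0 : Fin 30) ∈ S := (k 35).trans h18
  have h10 : (10 : Fin 30) ∈ S ↔ (0 : Fin 30) ∈ S := (k 3).trans h12
  have h27 : (27 : Fin 30) ∈ S ↔ (0 : Fin 30) ∈ S := (k 9).symm.trans h14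
  have h22 : (22 : Fin 30) ∈ S ↔ (0 : Fin 30) ∈ S := (k 10).symm.trans h16
  have h26 : (26 : Fin 30) ∈ S ↔ (0 : Fin 30) ∈ S := (k 13).trans h17
  have h9 : (9 : Fin 30) ∈ S ↔ (0 : Fin 30) ∈ S := (k 2).symm.trans h7
  have h21 : (21 : Fin 30) ∈ S ↔ (0 : Fin 30) ∈ S := (k 7).symm.trans h8
  have h25 : (25 : Fin 30) ∈ S ↔ (0 : Fin 30) ∈ S := (k 11).symm.trans h19
  have h29 : (29 : Fin 30) ∈ S ↔ (0 : Fin 30) ∈ S := (k 14).trans h20
  have h11 : (11 : Fin 30) ∈ S ↔ (0 : Fin 30) ∈ S := (k 25).symm.trans h10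
  have h28 : (28 : Fin 30) ∈ S ↔ (0 : Fin 30) ∈ S := (k 42).symm.trans h27
  have h23 : (23 : Fin 30) ∈ S ↔ (0 : Fin 30) ∈ S := (k 37).symm.trans h22
  have h24 : (24 : Fin 30) ∈ S ↔ (0 : Fin 30) ∈ S := (k 41).symm.trans h26
  intro v
  fin_cases v
  · exact h0
  · exact h1
  · exact h2
  · exact h3
  · exact h4
  · exact h5
  · exact h6
  · exact h7
  · exact h8
  · exact h9
  · exact h10
  · exact h11
  · exact h12
  · exact h13
  · exact h14
  · exact h15
  · exact h16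
  · exact h17
  · exact h18
  · exact h19
  · exact h20
  · exact h21
  · exact h22
  · exact h23
  · exact h24
  · exact h25
  · exact h26
  · exact h27
  · exact h28
  · exact h29

/-- Connectedness: every edge cut of a nonempty proper vertex set is nonempty. -/
theorem conn (S : Finset (Fin 30)) (hne : S.Nonempty) (hS : S ≠ univ) :
    ∃ e, ¬ (src e ∈ S ↔ tgt e ∈ S) := by
  by_contra hcon
  have k : ∀ e, (src e ∈ S ↔ tgt e ∈ S) := by
    intro e
    by_contra he
    exact hcon ⟨e, he⟩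
  have h := conn_aux S k
  obtain ⟨x, hx⟩ := hne
  apply hS
  rw [eq_univ_iff_forall]
  intro y
  exact (h y).mpr ((h x).mp hx)

/-- A multigraph with a Fano flow has no cut consisting of exactly one edge. -/
theorem bridgeless_of_fano (s t : E → V) (f : E → (Fin 3 → ZMod 2)) (hf : IsFanoFlow s t f)
    (S : Finset V) : (univ.filter (fun e => ¬ (s e ∈ S ↔ t e ∈ S))).card ≠ 1 := by
  intro hc
  obtain ⟨e0, he0⟩ := card_eq_one.mp hc
  have hsum : ∑ v ∈ S, ((∑ e ∈ univ.filter (fun e => s e = v), f e)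
     + (∑ e ∈ univ.filter (fun e => t e = v), f e)) = 0 :=
    sum_eq_zero (fun v _ => hf.2 v)
  rw [sum_add_distrib] at hsum
  have hs : ∀ u : E → V, ∑ v ∈ S, ∑ e ∈ univ.filter (fun e => u e = v), f e
      = ∑ e, (if u e ∈ S then f e else 0) := by
    intro u
    simp_rw [sum_filter]
    rw [sum_comm]
    apply sum_congr rfl
    intro e _
    rw [sum_ite_eq]
  rw [hs s, hs t, ← sum_add_distrib] at hsum
  have h2 : ∀ x : Fin 3 → ZMod 2, x + x = 0 := by decide
  have hterm : ∀ e ∈ univ, ((if s e ∈ S then f e else 0) + (if t e ∈ S then f e else 0))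
      = if e ∈ univ.filter (fun e => ¬ (s e ∈ S ↔ t e ∈ S)) then f e else 0 := by
    intro e _
    by_cases h : s e ∈ S <;> by_cases h' : t e ∈ S <;> simp [h, h', h2]
  rw [sum_congr rfl hterm, he0] at hsum
  simp only [mem_singleton, sum_ite_eq', mem_univ, if_true] at hsum
  exact hf.1 e0 hsum

/-- Main theorem: a negative answer to Q1. There is a finite cubic graph (even simple,
connected and bridgeless) with an `F_4`-flow, in particular with an `F_5`-flow, and a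
2-factor `C0` which is in no 3-even subgraph cover whose second member is a 2-factor. -/
theorem result :
    ∃ s t : Fin 45 → Fin 30,
      (∀ e, s e ≠ t e) ∧
      (∀ e e', e ≠ e' → s(s e, t e) ≠ s(s e', t e')) ∧
      (∀ S : Finset (Fin 30), S.Nonempty → S ≠ univ → ∃ e, ¬ (s e ∈ S ↔ t e ∈ S)) ∧
      (∀ S : Finset (Fin 30), (univ.filter (fun e => ¬ (s e ∈ S ↔ t e ∈ S))).card ≠ 1) ∧
      IsCubic s t ∧
      AdmitsFanoFlow 4 s t ∧
      AdmitsFanoFlow 5 s t ∧
      ∃ C0 : Finset (Fin 45), IsTwoFactor s t C0 ∧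
        ∀ C1 C2 : Finset (Fin 45), IsTwoFactor s t C1 → IsEvenSubgraph s t C2 →
          C0 ∪ C1 ∪ C2 ≠ univ :=
  ⟨src, tgt, simple_graph.1, simple_graph.2, conn, bridgeless_of_fano src tgt fl fano, cubic,
    ⟨fl, fano, lines⟩, ⟨fl, fano, lines.trans (by norm_num)⟩, tri, tri_factor,
    fun C1 C2 h1 h2 => no_cover C1 C2 h1 h2⟩

end Pool.Agent.Results.MP_31d2fb_co.TruncatedPetersen
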